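import Pool.Agent.Helper93_DEN2.Base
import Pool.Agent.Helper22_DEN2.Br
import Pool.Agent.Helper67_DEN.Van

/-!
# Squad DEN2: CHR
-/

open scoped BigOperators

namespace Pool.Agent.DEN.H932

open Pool.Agent.DEN

section chi
variable {K : Type} [Field K]

theorem not_sq_dvd {P : Polynomial K} (hP : Prime P) : ¬ P ^ 2 ∣ P := by
  intro h
  apply hP.not_isUnit
  have h2 : P * P ∣ P * 1 := by rwa [mul_one, ← pow_two]
  exact isUnit_of_dvd_one ((mul_dvd_mul_iff_left hP.ne_zero).1 h2)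

/-- an additive character of `K[t]`, trivial on `P ^ 2 K[t]`, not trivial at `P` -/
theorem exists_chi [Finite K] {P : Polynomial K} (hP : Prime P) :
    ∃ χ : Polynomial K → ℂ, (∀ a b, χ (a + b) = χ a * χ b) ∧ (∀ a, ‖χ a‖ = 1) ∧
      (∀ a, χ (P ^ 2 * a) = 1) ∧ χ P ≠ 1 := by
  let W : Submodule K (Polynomial K) := (Ideal.span {P ^ 2}).restrictScalars K
  have hW : P ∉ W := by
    intro h
    have h1 : P ∈ Ideal.span {P ^ 2} := h
    rw [Ideal.mem_span_singleton] at h1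
    exact not_sq_dvd hP h1
  obtain ⟨f, hf, hf'⟩ := Submodule.exists_dual_map_eq_bot_of_notMem hW inferInstance
  obtain ⟨ψ, hψ⟩ := (AddChar.exists_apply_ne_zero (a := f P)).2 hf
  refine ⟨fun a => ψ (f a), fun a b => ?_, fun a => ψ.norm_apply _, fun a => ?_, hψ⟩
  · show ψ (f (a + b)) = ψ (f a) * ψ (f b)
    rw [map_add, AddChar.map_add_eq_mul]
  · have h0 : f (P ^ 2 * a) = 0 := by
      have h2 : P ^ 2 * a ∈ W := by
        show P ^ 2 * a ∈ Ideal.span {P ^ 2}
        rw [Ideal.mem_span_singleton]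
        exact Dvd.intro a rfl
      have h1 : f (P ^ 2 * a) ∈ W.map f := Submodule.mem_map_of_mem h2
      rw [hf'] at h1
      simpa using h1
    show ψ (f (P ^ 2 * a)) = 1
    rw [h0, AddChar.map_zero_eq_one]

/-- Bezout modulo `P ^ 2` -/
theorem exists_bez {P y : Polynomial K} (hP : Prime P) (hy : ¬ P ^ 2 ∣ y) :
    ∃ c d : Polynomial K, P = c * y + P ^ 2 * d := by
  classical
  have h1 : EuclideanDomain.gcd y (P ^ 2) ∣ P ^ 2 := EuclideanDomain.gcd_dvd_right _ _
  obtain ⟨i, hi, hass⟩ := (dvd_prime_pow hP 2).1 h1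
  have hi2 : i ≠ 2 := by
    rintro rfl
    exact hy (hass.symm.dvd.trans (EuclideanDomain.gcd_dvd_left _ _))
  have h2 : P ^ i ∣ P := by
    have : i = 0 ∨ i = 1 := by omega
    rcases this with rfl | rfl
    · rw [pow_zero]; exact one_dvd P
    · rw [pow_one]
  obtain ⟨t, ht⟩ := hass.dvd.trans h2
  have h3 := EuclideanDomain.gcd_eq_gcd_ab y (P ^ 2)
  refine ⟨EuclideanDomain.gcdA y (P ^ 2) * t, EuclideanDomain.gcdB y (P ^ 2) * t, ?_⟩
  calc P = EuclideanDomain.gcd y (P ^ 2) * t := ht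
    _ = _ := by rw [h3]; ring

end chi

section
variable {r : ℕ} {C : Matrix (Fin r) (Fin r) ℤ} {K : Type} [Field K]

/-- the reading of a family of Cartan parts -/
noncomputable def Phi (hC : SimplyLaced C) (P : Polynomial K) (ix : Rt C → Fin r)
    (F : Rt C → Fin r → FF K) : FF K :=
  polyL K P * ∑ j, F (hC.sr j).neg j + ∑ᶠ θ : {θ : Rt C // IsDom C θ.1}, F θ.1 (ix θ.1)

variable [Finite (Rt C)]

theorem Phi_add (hC : SimplyLaced C) (P : Polynomial K) (ix : Rt C → Fin r)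
    (F G : Rt C → Fin r → FF K) :
    Phi hC P ix (fun μ i => F μ i + G μ i) = Phi hC P ix F + Phi hC P ix G := by
  unfold Phi
  have e : ∑ᶠ θ : {θ : Rt C // IsDom C θ.1}, (F θ.1 (ix θ.1) + G θ.1 (ix θ.1)) =
      (∑ᶠ θ : {θ : Rt C // IsDom C θ.1}, F θ.1 (ix θ.1)) +
        ∑ᶠ θ : {θ : Rt C // IsDom C θ.1}, G θ.1 (ix θ.1) :=
    finsum_add_distrib (Set.toFinite _) (Set.toFinite _)
  rw [e, Finset.sum_add_distrib]
  ring

theorem Phi_mul (hC : SimplyLaced C) (P : Polynomial K) (ix : Rt C → Fin r) (c : FF K)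
    (F : Rt C → Fin r → FF K) :
    Phi hC P ix (fun μ i => c * F μ i) = c * Phi hC P ix F := by
  unfold Phi
  have e : c * ∑ᶠ θ : {θ : Rt C // IsDom C θ.1}, F θ.1 (ix θ.1) =
      ∑ᶠ θ : {θ : Rt C // IsDom C θ.1}, c * F θ.1 (ix θ.1) := mul_finsum _ _
  rw [← e, ← Finset.mul_sum]
  ring

theorem Phi_mem (hC : SimplyLaced C) {S : Subring (FF K)} {P : Polynomial K}
    (hP : polyL K P ∈ S) (ix : Rt C → Fin r) {F : Rt C → Fin r → FF K} (hF : ∀ μ i, F μ i ∈ S) :
    Phi hC P ix F ∈ S :=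
  add_mem (mul_mem hP (sum_mem fun j _ => hF _ _)) (sub_finsum S _ fun θ => hF _ _)

/-- the reading of the bracket -/
theorem Phi_br (hC : SimplyLaced C) (P : Polynomial K) (ix : Rt C → Fin r)
    (x : LieV C (FF K)) : Phi hC P ix (fun μ i => (br x (EE μ)).1 i) = yf hC P ix x := by
  have key : ∀ (μ : Rt C) (i : Fin r), (br x (EE μ)).1 i = x.2 μ.neg * ((μ.1 i : ℤ) : FF K) := by
    intro μ i
    rw [Br.br_fst, finsum_eq_single _ μ.neg]
    · rw [Rt.neg_neg, EE_self, Rt.neg_val, Pi.neg_apply]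
      push_cast
      ring
    · intro ν hν
      rw [EE_ne]
      · ring
      · intro e
        apply hν
        rw [← e, Rt.neg_neg]
  unfold Phi yf
  have e1 : ∑ j, (br x (EE (hC.sr j).neg)).1 j = -∑ j, x.2 (hC.sr j) := by
    rw [← Finset.sum_neg_distrib]
    refine Finset.sum_congr rfl fun j _ => ?_
    rw [key, Rt.neg_neg, Rt.neg_val, Pi.neg_apply, SimplyLaced.sr_val, al, Pi.single_eq_same]
    push_cast
    ring
  have e2 : ∑ᶠ θ : {θ : Rt C // IsDom C θ.1}, (br x (EE θ.1)).1 (ix θ.1) =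
      ∑ᶠ θ : {θ : Rt C // IsDom C θ.1}, ((θ.1.1 (ix θ.1) : ℤ) : FF K) * x.2 θ.1.neg :=
    finsum_congr fun θ => by rw [key, mul_comm]
  rw [e1, e2, mul_neg]

theorem EE_cd (S : Subring (FF K)) (μ : Rt C) : Cd (S : Set (FF K)) (EE μ : LieV C (FF K)) := by
  refine ⟨fun i => ?_, fun ν => ?_⟩
  · rw [EE_fst]; exact zero_mem S
  · by_cases h : ν = μ
    · subst h; rw [EE_self]; exact one_mem S
    · rw [EE_ne h]; exact zero_mem S

/-- integral form of `TrivMod` -/
theorem triv_vec {M : Polynomial K} {g : grp C K} (hg : TrivMod C K 1 M g) {v : LieV C (FF K)}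
    (hv : Cd (ringA K 1 : Set (FF K)) v) :
    ∃ x : LieV C (FF K), Cd (ringA K 1 : Set (FF K)) x ∧ g.1 v = v + polyL K M • x := by
  have h := hg v hv
  choose x1 h1 h1' using h.1
  choose x2 h2 h2' using h.2
  refine ⟨(x1, x2), ⟨h1, h2⟩, ?_⟩
  have e : g.1 v = v + (g.1 v - v) := by abel
  rw [e]
  congr 1
  refine Prod.ext ?_ ?_
  · funext i
    exact h1' i
  · funext γ
    exact h2' γ

end

theorem chr (hell : EllStmt) (heqv : EqvStmt) (hloc : LocStmt) (hrtc : RtcStmt) : ChrStmt := by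
  intro r C hC K _ _ P M hP hM0 hPM
  have : Finite (Rt C) := H22.hRF r C hC
  obtain ⟨χ, χadd, χnorm, χP2, χP⟩ := exists_chi hP
  obtain ⟨M', rfl⟩ := hPM
  set M := P ^ 2 * M' with hM
  have hinj : Function.Injective (polyL K) := (H22.hF2 K).1
  have hA : ∀ a : FF K, a ∈ ringA K 1 → ∃ p : Polynomial K, a = polyL K p := by
    intro a ha
    have h1 : a ∈ (ringA K 1 : Set (FF K)) := ha
    rw [(H22.hF2 K).2.2.2.2] at h1
    obtain ⟨p, hp⟩ := h1
    exact ⟨p, hp.symm⟩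
  have hpol : ∀ p : Polynomial K, polyL K p ∈ ringA K 1 := fun p => H67.poly_mem 1 p
  -- indices
  obtain ⟨_, _, _, _, _, r6, _⟩ := hrtc r C hC
  choose ix hix using r6 K
  -- the Cartan parts
  set cd : grp C K → Rt C → Fin r → FF K := fun g μ i => (g.1 (EE μ : LieV C (FF K))).1 i with hcd
  classical
  set ψ : grp C K → ℂ := fun g => if h : ∃ q, Phi hC P ix (cd g) = polyL K (M * q) then
    χ h.choose else 1 with hψ
  have hψq : ∀ (g : grp C K) (q : Polynomial K), Phi hC P ix (cd g) = polyL K (M * q) →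
      ψ g = χ q := by
    intro g q hq
    have h : ∃ q, Phi hC P ix (cd g) = polyL K (M * q) := ⟨q, hq⟩
    have h1 : ψ g = χ h.choose := by rw [hψ]; exact dif_pos h
    rw [h1]
    congr 1
    have h2 := hinj (h.choose_spec.symm.trans hq)
    exact mul_left_cancel₀ hM0 h2
  -- elements of the congruence subgroup
  have hval : ∀ N : Polynomial K, ∀ g : grp C K, TrivMod C K 1 N g → ∃ q : Polynomial K,
      Phi hC P ix (cd g) = polyL K (N * q) := by
    intro N g hg
    choose x hx hx' using fun μ : Rt C => triv_vec hg (EE_cd (ringA K 1) μ)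
    have e : cd g = fun μ i => polyL K N * (x μ).1 i := by
      funext μ i
      rw [hcd]
      simp only
      rw [hx' μ]
      simp [EE_fst]
    rw [e, Phi_mul]
    obtain ⟨t, ht⟩ := hA _ (Phi_mem hC (S := ringA K 1) (hpol P) ix (F := fun μ i => (x μ).1 i)
      (fun μ i => (hx μ).1 i))
    exact ⟨t, by rw [ht, map_mul]⟩
  have hadd : ∀ a b : grp C K, TrivMod C K 1 M a → TrivMod C K 1 M b → ∃ t : Polynomial K,
      Phi hC P ix (cd (a * b)) = Phi hC P ix (cd a) + Phi hC P ix (cd b) +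
        polyL K (M * (M * t)) := by
    intro a b ha hb
    choose x hx hx' using fun μ : Rt C => triv_vec hb (EE_cd (ringA K 1) μ)
    choose y hy hy' using fun μ : Rt C => triv_vec ha (hx μ)
    have e : cd (a * b) = fun μ i => (cd a μ i + cd b μ i) +
        polyL K M * (polyL K M * (y μ).1 i) := by
      funext μ i
      have e1 : (a * b).1 (EE μ : LieV C (FF K)) = a.1 (b.1 (EE μ)) := rfl
      have e2 : cd b μ i = polyL K M * (x μ).1 i := by
        rw [hcd]
        simp only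
        rw [hx' μ]
        simp [EE_fst]
      rw [e2, hcd]
      simp only
      rw [e1, hx' μ, map_add, map_smul, hy' μ]
      simp only [Prod.fst_add, Prod.smul_fst, Pi.add_apply, Pi.smul_apply, smul_eq_mul]
      ring
    rw [e, Phi_add hC P ix (fun μ i => cd a μ i + cd b μ i), Phi_add, Phi_mul, Phi_mul]
    obtain ⟨t, ht⟩ := hA _ (Phi_mem hC (S := ringA K 1) (hpol P) ix (F := fun μ i => (y μ).1 i)
      (fun μ i => (hy μ).1 i))
    exact ⟨t, by rw [ht]; simp only [map_mul]⟩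
  have χ2 : ∀ t : Polynomial K, χ (M * t) = 1 := by
    intro t
    rw [hM, mul_assoc]
    exact χP2 _
  obtain ⟨nconj, _, _, _, _, nint⟩ := H22.hNrm r C hC K 1 M one_ne_zero hM0 isCoprime_one_left
  refine ⟨ψ, ?_, ?_, ?_, ?_⟩
  · intro a ha b hb
    obtain ⟨qa, hqa⟩ := hval M a ha.2.1
    obtain ⟨qb, hqb⟩ := hval M b hb.2.1
    obtain ⟨t, ht⟩ := hadd a b ha.2.1 hb.2.1
    rw [hqa, hqb, ← map_add, ← map_add, ← mul_add, ← mul_add] at ht
    rw [hψq _ _ ht, hψq _ _ hqa, hψq _ _ hqb, χadd, χadd, χ2, mul_one]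
  · intro a ha
    obtain ⟨qa, hqa⟩ := hval M a ha.2.1
    rw [hψq _ _ hqa]
    exact χnorm _
  · intro a ha
    have mono : ∀ g : grp C K, TrivMod C K 1 (M * P ^ 2) g → TrivMod C K 1 M g := by
      intro g hg v hv
      obtain ⟨h1, h2⟩ := hg v hv
      refine ⟨fun i => ?_, fun γ => ?_⟩
      · obtain ⟨b, hb, hb'⟩ := h1 i
        exact ⟨polyL K (P ^ 2) * b, mul_mem (hpol _) hb, by rw [hb', map_mul]; ring⟩
      · obtain ⟨b, hb, hb'⟩ := h2 γ
        exact ⟨polyL K (P ^ 2) * b, mul_mem (hpol _) hb, by rw [hb', map_mul]; ring⟩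
    refine ⟨⟨ha.1, mono _ ha.2.1, mono _ ha.2.2⟩, ?_⟩
    obtain ⟨q, hq⟩ := hval _ a ha.2.1
    rw [mul_assoc] at hq
    rw [hψq _ _ hq]
    exact χP2 _
  · intro γ hγ i
    have hle : arith C K 1 ≤ GS C (loc K P) := by
      apply Subgroup.closure_mono
      rintro g ⟨β, a, ha, hg⟩
      exact ⟨β, a, (hloc K P hP).2.1 a ha, hg⟩
    obtain ⟨β, hβi, hβ⟩ := hell r C hC K P hP ix hix γ (hle hγ) i
    set x : LieV C (FF K) := γ.1 (EE β) with hx
    have hxi : Cd (ringA K 1 : Set (FF K)) x := nint γ hγ _ (EE_cd _ β)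
    have hyA : yf hC P ix x ∈ ringA K 1 := by
      rw [← Phi_br]
      exact Phi_mem hC (hpol P) ix fun μ i => (br_mem hxi (EE_cd _ μ)).1 i
    obtain ⟨y, hy⟩ := hA _ hyA
    have hy2 : ¬ P ^ 2 ∣ y := by
      rintro ⟨t, rfl⟩
      apply hβ
      rw [hy, map_mul, map_pow]
      exact ⟨polyL K t, pol_mem P t, rfl⟩
    obtain ⟨c, d, hcd'⟩ := exists_bez hP hy2
    have hu : xg hC β (polyL K M * polyL K c) ∈ cong C K 1 M := H67.cong_x hC 1 M β (hpol c)
    refine ⟨xg hC β (polyL K M * polyL K c), Subgroup.subset_closure ⟨β, _, hβi, fun v => rfl⟩,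
      hu, ?_⟩
    set a : FF K := polyL K M * polyL K c with ha
    have hg := nconj γ hγ _ hu
    set w : Rt C → LieV C (FF K) := fun μ => (γ⁻¹).1 (EE μ) with hw
    have hwi : ∀ μ, Cd (ringA K 1 : Set (FF K)) (w μ) := fun μ =>
      nint γ⁻¹ (inv_mem hγ) _ (EE_cd _ μ)
    have hγw : ∀ μ, γ.1 (w μ) = EE μ := by
      intro μ
      have e : γ.1 (w μ) = (γ * γ⁻¹).1 (EE μ) := rfl
      rw [e, mul_inv_cancel]
      rfl
    have hEE : (EE β : LieV C (FF K)) = Br.ev β := rfl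
    have e : cd (γ * xg hC β a * γ⁻¹) = fun μ i => a * (br x (EE μ)).1 i +
        a * (a * ((w μ).2 β.neg * x.1 i)) := by
      funext μ i
      have e1 : (γ * xg hC β a * γ⁻¹).1 (EE μ : LieV C (FF K)) = γ.1 (rootMap β a (w μ)) := rfl
      rw [hcd]
      simp only
      rw [e1, Br.rootMap_eq, map_add, map_add, map_smul, map_smul, heqv r C hC K, hγw, ← hEE,
        ← hx]
      simp only [Prod.fst_add, Prod.smul_fst, Pi.add_apply, Pi.smul_apply, smul_eq_mul, EE_fst,
        Pi.zero_apply]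
      ring
    have hΦ : Phi hC P ix (cd (γ * xg hC β a * γ⁻¹)) = a * yf hC P ix x +
        a * (a * Phi hC P ix fun μ i => (w μ).2 β.neg * x.1 i) := by
      rw [e, Phi_add hC P ix (fun μ i => a * (br x (EE μ)).1 i), Phi_mul, Phi_mul, Phi_mul, Phi_br]
    obtain ⟨t, ht⟩ := hA _ (Phi_mem hC (S := ringA K 1) (hpol P) ix
      (F := fun μ i => (w μ).2 β.neg * x.1 i) (fun μ i => mul_mem ((hwi μ).2 _) (hxi.1 i)))
    have hq : Phi hC P ix (cd (γ * xg hC β a * γ⁻¹)) =
        polyL K (M * (c * y + M * (c * (c * t)))) := by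
      rw [hΦ, ht, hy, ha]
      simp only [map_mul, map_add]
      ring
    rw [hψq _ _ hq, χadd, χ2, mul_one]
    intro h1
    apply χP
    rw [hcd', χadd, χP2, mul_one]
    exact h1

end Pool.Agent.DEN.H932
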