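import Pool.Agent.Helper22_DEN2.Stmt

/-!
# Squad DEN2: tools for ELL and CHR
-/

open scoped BigOperators

namespace Pool.Agent.DEN.H932

open Pool.Agent.DEN

/-! ### The ideals `lp` -/

section lp
variable {K : Type} [Field K] {P : Polynomial K}

theorem pol_mem (P p : Polynomial K) : polyL K p ∈ loc K P :=
  Subring.subset_closure (Or.inl ⟨p, rfl⟩)

theorem lp_zero (k : ℕ) : (0 : FF K) ∈ lp K P k := ⟨0, zero_mem _, by simp⟩

theorem lp_add {k : ℕ} {a b : FF K} (ha : a ∈ lp K P k) (hb : b ∈ lp K P k) :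
    a + b ∈ lp K P k := by
  obtain ⟨x, hx, rfl⟩ := ha
  obtain ⟨y, hy, rfl⟩ := hb
  exact ⟨x + y, add_mem hx hy, by ring⟩

theorem lp_neg {k : ℕ} {a : FF K} (ha : a ∈ lp K P k) : -a ∈ lp K P k := by
  obtain ⟨x, hx, rfl⟩ := ha
  exact ⟨-x, neg_mem hx, by ring⟩

theorem lp_sub {k : ℕ} {a b : FF K} (ha : a ∈ lp K P k) (hb : b ∈ lp K P k) :
    a - b ∈ lp K P k := by
  rw [sub_eq_add_neg]
  exact lp_add ha (lp_neg hb)

theorem lp_mul {k : ℕ} {a b : FF K} (ha : a ∈ loc K P) (hb : b ∈ lp K P k) :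
    a * b ∈ lp K P k := by
  obtain ⟨y, hy, rfl⟩ := hb
  exact ⟨a * y, mul_mem ha hy, by ring⟩

theorem lp_le {k l : ℕ} (h : k ≤ l) {a : FF K} (ha : a ∈ lp K P l) : a ∈ lp K P k := by
  obtain ⟨y, hy, rfl⟩ := ha
  refine ⟨polyL K P ^ (l - k) * y, mul_mem (pow_mem (pol_mem P P) _) hy, ?_⟩
  rw [← mul_assoc, ← pow_add, Nat.add_sub_cancel' h]

theorem lp_P {k : ℕ} {a : FF K} (ha : a ∈ lp K P k) : polyL K P * a ∈ lp K P (k + 1) := by
  obtain ⟨y, hy, rfl⟩ := ha
  exact ⟨y, hy, by ring⟩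

theorem loc_lp {a : FF K} (ha : a ∈ loc K P) : a ∈ lp K P 0 := ⟨a, ha, by simp⟩

theorem lp_loc {k : ℕ} {a : FF K} (ha : a ∈ lp K P k) : a ∈ loc K P := by
  obtain ⟨y, hy, rfl⟩ := ha
  exact mul_mem (pow_mem (pol_mem P P) _) hy

theorem lp_sum {ι : Type} (s : Finset ι) {k : ℕ} (f : ι → FF K) (h : ∀ i ∈ s, f i ∈ lp K P k) :
    ∑ i ∈ s, f i ∈ lp K P k := by
  classical
  induction s using Finset.induction_on with
  | empty => simpa using lp_zero k
  | insert a s ha ih =>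
    rw [Finset.sum_insert ha]
    exact lp_add (h a (Finset.mem_insert_self a s))
      (ih fun i hi => h i (Finset.mem_insert_of_mem hi))

theorem lp_finsum {ι : Type} [Finite ι] {k : ℕ} (f : ι → FF K) (h : ∀ i, f i ∈ lp K P k) :
    ∑ᶠ i, f i ∈ lp K P k := by
  have := Fintype.ofFinite ι
  rw [finsum_eq_sum_of_fintype]
  exact lp_sum _ f fun i _ => h i

theorem sub_finsum {ι : Type} [Finite ι] (S : Subring (FF K)) (f : ι → FF K) (h : ∀ i, f i ∈ S) :
    ∑ᶠ i, f i ∈ S := by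
  have := Fintype.ofFinite ι
  rw [finsum_eq_sum_of_fintype]
  exact sum_mem fun i _ => h i

end lp

/-! ### Vectors -/

section vec
variable {r : ℕ} {C : Matrix (Fin r) (Fin r) ℤ} {K : Type} [Field K]

theorem EE_fst (β : Rt C) : (EE β : LieV C (FF K)).1 = 0 := rfl

theorem EE_self (β : Rt C) : (EE β : LieV C (FF K)).2 β = 1 := by
  simp [EE]

theorem EE_ne {β γ : Rt C} (h : γ ≠ β) : (EE β : LieV C (FF K)).2 γ = 0 := by
  simp [EE, h]

/-- a vector without Cartan part is a combination of root vectors -/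
theorem expand [Fintype (Rt C)] (v : LieV C (FF K)) (hv : v.1 = 0) :
    v = ∑ μ : Rt C, v.2 μ • (EE μ : LieV C (FF K)) := by
  classical
  refine Prod.ext ?_ ?_
  · rw [hv, Prod.fst_sum]
    simp [EE_fst]
  · funext γ
    rw [Prod.snd_sum, Finset.sum_apply, Finset.sum_eq_single γ]
    · simp [EE_self]
    · intro μ _ hne
      simp [EE_ne hne.symm]
    · intro h
      exact absurd (Finset.mem_univ γ) h

theorem pr_zero {v : LieV C (FF K)} (hv : v.1 = 0) (x : Fin r → ℤ) : pr v x = 0 := by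
  simp [pr, hv]

theorem crd_mem {S : Subring (FF K)} {v : LieV C (FF K)} (hv : ∀ μ, v.2 μ ∈ S) (x : Fin r → ℤ) :
    crd v x ∈ S := by
  unfold crd
  split_ifs with h
  · exact hv _
  · exact zero_mem _

theorem pr_mem {S : Subring (FF K)} {v : LieV C (FF K)} (hv : ∀ i, v.1 i ∈ S) (x : Fin r → ℤ) :
    pr v x ∈ S := by
  unfold pr
  refine sum_mem fun i _ => sum_mem fun j _ => ?_
  exact mul_mem (mul_mem (hv i) (intCast_mem _ _)) (intCast_mem _ _)

/-- the bracket preserves integrality -/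
theorem br_mem [Finite (Rt C)] {S : Subring (FF K)} {v w : LieV C (FF K)} (hv : Cd S v)
    (hw : Cd S w) : Cd S (br v w) := by
  constructor
  · intro i
    refine neg_mem (sub_finsum S _ fun μ => ?_)
    exact mul_mem (mul_mem (hv.2 _) (hw.2 _)) (intCast_mem _ _)
  · intro γ
    refine sub_mem (add_mem (sub_finsum S _ fun μ => ?_) (mul_mem (pr_mem hv.1 _) (hw.2 _)))
      (mul_mem (hv.2 _) (pr_mem hw.1 _))
    split_ifs
    · exact mul_mem (mul_mem (intCast_mem _ _) (hv.2 _)) (crd_mem hw.2 _)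
    · exact zero_mem _

/-- stability under the unipotent group -/
theorem us_stable (hC : SimplyLaced C) (S : Subring (FF K)) (T : LieV C (FF K) → Prop)
    (h : ∀ β : Rt C, β.Pos → ∀ a ∈ S, ∀ v, T v → T (rootMap β a v)) :
    ∀ u ∈ US C S, ∀ v, T v → T (u.1 v) := by
  suffices H : ∀ u ∈ US C S, (∀ v, T v → T (u.1 v)) ∧ ∀ v, T v → T ((u⁻¹).1 v) from
    fun u hu => (H u hu).1
  intro u hu
  unfold US at hu
  induction hu using Subgroup.closure_induction with
  | mem g hg =>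
    obtain ⟨β, a, hβ, ha, hg⟩ := hg
    have e := eq_xg hC β a g hg
    subst e
    refine ⟨fun v hv => h β hβ a ha v hv, fun v hv => ?_⟩
    rw [xg_inv]
    exact h β hβ (-a) (neg_mem ha) v hv
  | one => exact ⟨fun v hv => hv, fun v hv => by rw [inv_one]; exact hv⟩
  | mul a b _ _ ha hb =>
    refine ⟨fun v hv => ha.1 _ (hb.1 v hv), fun v hv => ?_⟩
    rw [mul_inv_rev]
    exact hb.2 _ (ha.2 v hv)
  | inv a _ ha =>
    refine ⟨ha.2, fun v hv => ?_⟩
    rw [inv_inv]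
    exact ha.1 v hv

theorem us_le_gs (S : Subring (FF K)) : (US C S : Subgroup (grp C K)) ≤ GS C S := by
  apply Subgroup.closure_mono
  rintro g ⟨β, a, _, ha, hg⟩
  exact ⟨β, a, ha, hg⟩

/-! ### The functional `yf` -/

variable [Finite (Rt C)]

theorem yf_add (hC : SimplyLaced C) (P : Polynomial K) (ix : Rt C → Fin r)
    (v w : LieV C (FF K)) : yf hC P ix (v + w) = yf hC P ix v + yf hC P ix w := by
  unfold yf
  have e : ∀ θ : {θ : Rt C // IsDom C θ.1},
      ((θ.1.1 (ix θ.1) : ℤ) : FF K) * (v + w).2 θ.1.neg =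
      ((θ.1.1 (ix θ.1) : ℤ) : FF K) * v.2 θ.1.neg + ((θ.1.1 (ix θ.1) : ℤ) : FF K) * w.2 θ.1.neg := by
    intro θ
    simp [mul_add]
  rw [finsum_congr e, finsum_add_distrib (Set.toFinite _) (Set.toFinite _)]
  simp only [Prod.snd_add, Pi.add_apply, Finset.sum_add_distrib]
  ring

theorem yf_smul (hC : SimplyLaced C) (P : Polynomial K) (ix : Rt C → Fin r) (c : FF K)
    (v : LieV C (FF K)) : yf hC P ix (c • v) = c * yf hC P ix v := by
  unfold yf
  have e : ∀ θ : {θ : Rt C // IsDom C θ.1},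
      ((θ.1.1 (ix θ.1) : ℤ) : FF K) * (c • v).2 θ.1.neg =
      c * (((θ.1.1 (ix θ.1) : ℤ) : FF K) * v.2 θ.1.neg) := by
    intro θ
    simp
    ring
  have e2 : c * ∑ᶠ θ : {θ : Rt C // IsDom C θ.1}, ((θ.1.1 (ix θ.1) : ℤ) : FF K) * v.2 θ.1.neg =
      ∑ᶠ θ : {θ : Rt C // IsDom C θ.1}, c * (((θ.1.1 (ix θ.1) : ℤ) : FF K) * v.2 θ.1.neg) :=
    mul_finsum _ _
  rw [finsum_congr e, ← e2]
  simp only [Prod.smul_snd, Pi.smul_apply, smul_eq_mul]
  rw [← Finset.mul_sum]
  ring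

/-- the functional as a linear map -/
noncomputable def yfL (hC : SimplyLaced C) (P : Polynomial K) (ix : Rt C → Fin r) :
    LieV C (FF K) →ₗ[FF K] FF K where
  toFun := yf hC P ix
  map_add' := yf_add hC P ix
  map_smul' := yf_smul hC P ix

theorem yf_lp (hC : SimplyLaced C) {P : Polynomial K} (ix : Rt C → Fin r) {k : ℕ}
    {v : LieV C (FF K)} (hv : ∀ γ, v.2 γ ∈ lp K P k) : yf hC P ix v ∈ lp K P k := by
  unfold yf
  refine lp_add (lp_neg (lp_mul (pol_mem P P) (lp_sum _ _ fun j _ => hv _))) ?_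
  exact lp_finsum _ fun θ => lp_mul (intCast_mem _ _) (hv _)

end vec

end Pool.Agent.DEN.H932
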