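import Pool.Agent.Helper93_DEN2.Base

/-!
# Squad DEN2: ELL
-/

open scoped BigOperators

namespace Pool.Agent.DEN.H932

open Pool.Agent.DEN

section
variable {r : ℕ} {C : Matrix (Fin r) (Fin r) ℤ} {K : Type} [Field K]

theorem root_ne_zero (β : Rt C) : β.1 ≠ 0 := by
  intro h
  have := β.2
  rw [h, ip_zero_left] at this
  norm_num at this

theorem pos_not_neg {β : Rt C} (h : β.Pos) : ¬ β.neg.Pos := by
  intro h'
  apply root_ne_zero β
  funext i
  have h1 := h i
  have h2 := h' i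
  rw [Rt.neg_val, Pi.neg_apply] at h2
  simp only [Pi.zero_apply]
  omega

theorem pos_add {β γ δ : Rt C} (h : β.Pos) (h' : γ.Pos) (e : δ.1 = β.1 + γ.1) : δ.Pos := by
  intro i
  rw [e, Pi.add_apply]
  exact add_nonneg (h i) (h' i)

theorem al_ne_add (l : Fin r) {β γ : Rt C} (h : β.Pos) (h' : γ.Pos) : al l ≠ β.1 + γ.1 := by
  intro e
  have e1 : ∀ i, i ≠ l → β.1 i = 0 ∧ γ.1 i = 0 := by
    intro i hi
    have h1 := congrFun e i
    rw [Pi.add_apply, al, Pi.single_eq_of_ne hi] at h1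
    have h2 := h i
    have h3 := h' i
    constructor <;> omega
  have h1 := congrFun e l
  rw [Pi.add_apply, al, Pi.single_eq_same] at h1
  have h2 := h l
  have h3 := h' l
  rcases (show β.1 l = 0 ∨ γ.1 l = 0 by omega) with h0 | h0
  · apply root_ne_zero β
    funext i
    by_cases hi : i = l
    · subst hi; exact h0
    · exact (e1 i hi).1
  · apply root_ne_zero γ
    funext i
    by_cases hi : i = l
    · subst hi; exact h0
    · exact (e1 i hi).2

theorem crd_zero_of {v : LieV C (FF K)} {x : Fin r → ℤ} (h : ∀ μ : Rt C, μ.1 = x → v.2 μ = 0) :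
    crd v x = 0 := by
  unfold crd
  split_ifs with hx
  · exact h _ rfl
  · rfl

/-- the vectors with components of positive `i`-degree -/
def Ti (S : Subring (FF K)) (i : Fin r) (v : LieV C (FF K)) : Prop :=
  v.1 = 0 ∧ (∀ μ, v.2 μ ∈ S) ∧ ∀ μ : Rt C, ¬ 0 < μ.1 i → v.2 μ = 0

theorem ti_root {S : Subring (FF K)} {i : Fin r} {β : Rt C} (hβ : β.Pos)
    {a : FF K} (ha : a ∈ S) {v : LieV C (FF K)} (hv : Ti S i v) : Ti S i (rootMap β a v) := by
  obtain ⟨h1, h2, h3⟩ := hv
  have hn : v.2 β.neg = 0 := h3 _ (by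
    rw [Rt.neg_val, Pi.neg_apply]
    have := hβ i
    omega)
  refine ⟨?_, ?_, ?_⟩
  · funext j
    rw [rootMap_fst, hn, h1]
    simp
  · intro γ
    by_cases e1 : γ = β
    · subst e1
      rw [rootMap_snd_self, hn, pr_zero h1]
      simpa using h2 γ
    · by_cases e2 : ip C β.1 γ.1 = 1
      · rw [rootMap_snd_one _ _ _ _ e2]
        exact add_mem (h2 γ) (mul_mem (mul_mem ha (intCast_mem _ _)) (crd_mem h2 _))
      · rw [rootMap_snd_other _ _ _ _ e1 e2]
        exact h2 γ
  · intro γ hγ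
    by_cases e1 : γ = β
    · subst e1
      rw [rootMap_snd_self, hn, pr_zero h1, h3 _ hγ]
      simp
    · by_cases e2 : ip C β.1 γ.1 = 1
      · rw [rootMap_snd_one _ _ _ _ e2, h3 _ hγ, crd_zero_of, mul_zero, add_zero]
        intro μ hμ
        apply h3
        rw [hμ, Pi.sub_apply]
        have := hβ i
        omega
      · rw [rootMap_snd_other _ _ _ _ e1 e2]
        exact h3 _ hγ

/-- the vectors supported on the positive roots, equal to `e_{α_k}` on the simple roots -/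
def Tk (hC : SimplyLaced C) (S : Subring (FF K)) (k : Fin r) (v : LieV C (FF K)) : Prop :=
  v.1 = 0 ∧ (∀ μ, v.2 μ ∈ S) ∧ (∀ μ : Rt C, ¬ μ.Pos → v.2 μ = 0) ∧
    ∀ l, v.2 (hC.sr l) = if l = k then 1 else 0

theorem tk_root (hC : SimplyLaced C) {S : Subring (FF K)} {k : Fin r} {β : Rt C} (hβ : β.Pos)
    {a : FF K} (ha : a ∈ S) {v : LieV C (FF K)} (hv : Tk hC S k v) :
    Tk hC S k (rootMap β a v) := by
  obtain ⟨h1, h2, h3, h4⟩ := hv
  have hn : v.2 β.neg = 0 := h3 _ (pos_not_neg hβ)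
  refine ⟨?_, ?_, ?_, ?_⟩
  · funext j
    rw [rootMap_fst, hn, h1]
    simp
  · intro γ
    by_cases e1 : γ = β
    · subst e1
      rw [rootMap_snd_self, hn, pr_zero h1]
      simpa using h2 γ
    · by_cases e2 : ip C β.1 γ.1 = 1
      · rw [rootMap_snd_one _ _ _ _ e2]
        exact add_mem (h2 γ) (mul_mem (mul_mem ha (intCast_mem _ _)) (crd_mem h2 _))
      · rw [rootMap_snd_other _ _ _ _ e1 e2]
        exact h2 γ
  · intro γ hγ
    by_cases e1 : γ = β
    · exact absurd hβ (e1 ▸ hγ)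
    · by_cases e2 : ip C β.1 γ.1 = 1
      · rw [rootMap_snd_one _ _ _ _ e2, h3 _ hγ, crd_zero_of, mul_zero, add_zero]
        intro μ hμ
        apply h3
        intro hp
        exact hγ (pos_add hβ hp (by rw [hμ]; abel))
      · rw [rootMap_snd_other _ _ _ _ e1 e2]
        exact h3 _ hγ
  · intro l
    by_cases e1 : hC.sr l = β
    · rw [← h4 l, e1, rootMap_snd_self, hn, pr_zero h1]
      simp
    · by_cases e2 : ip C β.1 (hC.sr l).1 = 1
      · rw [rootMap_snd_one _ _ _ _ e2, h4, crd_zero_of, mul_zero, add_zero]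
        intro μ hμ
        apply h3
        intro hp
        refine al_ne_add l hβ hp ?_
        rw [hμ, SimplyLaced.sr_val]
        abel
      · rw [rootMap_snd_other _ _ _ _ e1 e2]
        exact h4 l

/-- the coordinates at the negatives of the dominant roots do not change -/
theorem dom_root (hrtc : RtcStmt) (hC : SimplyLaced C) {θ : Rt C} (hθ : IsDom C θ.1) {β : Rt C}
    (hβ : β.Pos) (a : FF K) (v : LieV C (FF K)) : (rootMap β a v).2 θ.neg = v.2 θ.neg := by
  obtain ⟨_, r2, _, r4, _⟩ := hrtc r C hC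
  apply rootMap_snd_other
  · intro e
    exact pos_not_neg (r4 θ hθ) (e ▸ hβ)
  · rw [Rt.neg_val, ip_neg_right]
    have := r2 θ β hθ hβ
    omega

theorem int_lp (hloc : LocStmt) {P : Polynomial K} (hP : Prime P) {n : ℤ} (hn : ((n : ℤ) : K) ≠ 0) :
    ((n : ℤ) : FF K) ∉ lp K P 1 := by
  intro h
  have e : ((n : ℤ) : FF K) = polyL K ((n : ℤ) : Polynomial K) := by rw [map_intCast]
  rw [e] at h
  have h1 := (hloc K P hP).2.2.2.1 _ _ h
  rw [pow_one] at h1
  have h2 : ((n : ℤ) : Polynomial K) = Polynomial.C ((n : ℤ) : K) := by simp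
  rw [h2] at h1
  exact hP.not_unit (isUnit_of_dvd_unit h1 (Polynomial.isUnit_C.2 (isUnit_iff_ne_zero.2 hn)))

theorem P_lp (hloc : LocStmt) {P : Polynomial K} (hP : Prime P) : -polyL K P ∉ lp K P 2 := by
  intro h
  have h0 := lp_neg h
  rw [neg_neg] at h0
  have h1 := (hloc K P hP).2.2.2.1 _ _ h0
  apply hP.not_unit
  have h2 : P * P ∣ P * 1 := by rwa [mul_one, ← pow_two]
  exact isUnit_of_dvd_one ((mul_dvd_mul_iff_left hP.ne_zero).1 h2)

/-- the value of `yf` at a vector which is `e_{-θ}` on the negatives of the dominant roots -/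
theorem yf_theta [Finite (Rt C)] (hC : SimplyLaced C) (P : Polynomial K) (ix : Rt C → Fin r)
    {θ : Rt C} (hθ : IsDom C θ.1) (w : LieV C (FF K)) (h1 : w.2 θ.neg = 1)
    (h2 : ∀ θ' : Rt C, IsDom C θ'.1 → θ' ≠ θ → w.2 θ'.neg = 0) :
    yf hC P ix w = -(polyL K P * ∑ j, w.2 (hC.sr j)) + ((θ.1 (ix θ) : ℤ) : FF K) := by
  unfold yf
  congr 1
  rw [finsum_eq_single _ (⟨θ, hθ⟩ : {θ : Rt C // IsDom C θ.1})]
  · rw [h1, mul_one]
  · rintro ⟨θ', hθ'⟩ hne
    rw [h2 θ' hθ' (fun e => hne (Subtype.ext e)), mul_zero]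

/-- the value of `yf` at a vector which is supported on the positive roots -/
theorem yf_pos [Finite (Rt C)] (hC : SimplyLaced C) (P : Polynomial K) (ix : Rt C → Fin r)
    (w : LieV C (FF K)) (h2 : ∀ θ' : Rt C, IsDom C θ'.1 → w.2 θ'.neg = 0) :
    yf hC P ix w = -(polyL K P * ∑ j, w.2 (hC.sr j)) := by
  unfold yf
  have : ∑ᶠ θ : {θ : Rt C // IsDom C θ.1}, ((θ.1.1 (ix θ.1) : ℤ) : FF K) * w.2 θ.1.neg = 0 := by
    apply finsum_eq_zero_of_forall_eq_zero
    rintro ⟨θ', hθ'⟩
    rw [h2 θ' hθ', mul_zero]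
  rw [this, add_zero]

/-- the bracket with a vector supported on the positive roots -/
theorem br_theta (hrtc : RtcStmt) (hC : SimplyLaced C) {S : Subring (FF K)} {k : Fin r}
    {w : LieV C (FF K)} (hw : Tk hC S k w) (z : LieV C (FF K)) {θ : Rt C} (hθ : IsDom C θ.1) :
    (br z w).2 θ.neg = 0 := by
  obtain ⟨_, r2, _, r4, _⟩ := hrtc r C hC
  obtain ⟨h1, h2, h3, h4⟩ := hw
  have e1 : w.2 θ.neg = 0 := h3 _ (pos_not_neg (r4 θ hθ))
  show (∑ᶠ μ : Rt C, if ip C μ.1 θ.neg.1 = 1 then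
        ((eps C μ.1 (θ.neg.1 - μ.1) : ℤ) : FF K) * z.2 μ * crd w (θ.neg.1 - μ.1) else 0)
      + pr z θ.neg.1 * w.2 θ.neg - z.2 θ.neg * pr w θ.neg.1 = 0
  rw [e1, pr_zero h1, mul_zero, mul_zero, sub_zero, add_zero]
  apply finsum_eq_zero_of_forall_eq_zero
  intro μ
  split_ifs with hμ
  · rw [crd_zero_of, mul_zero]
    intro ν hν
    apply h3
    intro hp
    have h5 := r2 θ ν hθ hp
    rw [Rt.neg_val, ip_neg_right] at hμ
    rw [hν, Rt.neg_val, ip_sub_left, ip_neg_left, θ.2] at h5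
    omega
  · rfl

end

theorem ell (hbru : BruSStmt) (hrtc : RtcStmt) (hloc : LocStmt) (hjgr : JgrStmt) : EllStmt := by
  intro r C hC K _ P hP ix hix γ hγ i
  haveI : Finite (Rt C) := H22.hRF r C hC
  haveI : Fintype (Rt C) := Fintype.ofFinite _
  by_contra hcon
  push Not at hcon
  obtain ⟨_, r2, _, r4, _, _, r7⟩ := hrtc r C hC
  obtain ⟨j, u, n, u', ⟨hjG, z, hz, hj⟩, hu, hn, hu', rfl⟩ := hbru r C hC K P hP γ hγ
  obtain ⟨σ, s, c, d, n1, n2, n3, n4, n5, n6⟩ := hn
  obtain ⟨β, hβi, hβ⟩ := r7 σ s n1 i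
  -- the vectors of positive degree
  have hT : ∀ v : LieV C (FF K), Ti (loc K P) i v →
      yf hC P ix ((j * u * n * u' : grp C K).1 v) ∈ lp K P 2 := by
    intro v hv
    rw [expand v hv.1, map_sum]
    have : yf hC P ix (∑ x : Rt C, (j * u * n * u' : grp C K).1 (v.2 x • EE x)) =
        ∑ x : Rt C, v.2 x * yf hC P ix ((j * u * n * u' : grp C K).1 (EE x)) := by
      have e := map_sum (yfL hC P ix)
        (fun x => (j * u * n * u' : grp C K).1 (v.2 x • EE x)) Finset.univ
      rw [show yf hC P ix (∑ x : Rt C, (j * u * n * u' : grp C K).1 (v.2 x • EE x)) =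
        yfL hC P ix (∑ x : Rt C, (j * u * n * u' : grp C K).1 (v.2 x • EE x)) from rfl, e]
      refine Finset.sum_congr rfl fun x _ => ?_
      rw [map_smul, map_smul]
      rfl
    rw [this]
    refine lp_sum _ _ fun x _ => ?_
    by_cases hx : 0 < x.1 i
    · exact lp_mul (hv.2.1 x) (hcon x hx)
    · rw [hv.2.2 x hx, zero_mul]
      exact lp_zero 2
  -- the action of `n`
  have hnE : n.1 (EE β) = d β • (EE (s β) : LieV C (FF K)) := by
    refine Prod.ext ?_ ?_
    · rw [n6 _ rfl]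
      simp [EE_fst]
    · funext μ
      have e := n5 (EE β) (s.symm μ)
      rw [Equiv.apply_symm_apply] at e
      rw [e]
      by_cases hμ : μ = s β
      · subst hμ
        rw [Equiv.symm_apply_apply, EE_self]
        simp [EE_self]
      · have h1 : s.symm μ ≠ β := by
          rintro rfl
          exact hμ (Equiv.apply_symm_apply s μ).symm
        rw [EE_ne h1]
        simp [EE_ne hμ]
  have hEβ : Ti (loc K P) i (EE β : LieV C (FF K)) := by
    refine ⟨rfl, fun μ => ?_, fun μ hμ => ?_⟩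
    · by_cases h : μ = β
      · subst h; rw [EE_self]; exact one_mem _
      · rw [EE_ne h]; exact zero_mem _
    · exact EE_ne (by rintro rfl; exact hμ hβi)
  have hv0 : Ti (loc K P) i ((u'⁻¹).1 (EE β : LieV C (FF K))) :=
    us_stable hC (loc K P) (Ti (loc K P) i) (fun β hβ a ha v hv => ti_root hβ ha hv) _
      (inv_mem hu') _ hEβ
  have h1 := hT _ hv0
  have e1 : (j * u * n * u' : grp C K).1 ((u'⁻¹).1 (EE β : LieV C (FF K))) =
      d β • j.1 (u.1 (EE (s β) : LieV C (FF K))) := by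
    have e2 : (j * u * n * u' : grp C K).1 ((u'⁻¹).1 (EE β : LieV C (FF K))) =
        j.1 (u.1 (n.1 ((u' * u'⁻¹).1 (EE β : LieV C (FF K))))) := rfl
    rw [e2, mul_inv_cancel]
    have e3 : ((1 : grp C K).1 (EE β : LieV C (FF K))) = EE β := rfl
    rw [e3, hnE, map_smul, map_smul]
  rw [e1, yf_smul] at h1
  have h2 : yf hC P ix (j.1 (u.1 (EE (s β) : LieV C (FF K)))) ∈ lp K P 2 := by
    have := lp_mul (n3 β).2.2 h1
    rwa [inv_mul_cancel_left₀ (n3 β).1] at this
  -- integrality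
  have hEc : ∀ μ : Rt C, Cd (loc K P : Set (FF K)) (EE μ : LieV C (FF K)) := by
    intro μ
    refine ⟨fun i => ?_, fun ν => ?_⟩
    · rw [EE_fst]; exact zero_mem (loc K P)
    · by_cases h : ν = μ
      · subst h; rw [EE_self]; exact one_mem (loc K P)
      · rw [EE_ne h]; exact zero_mem (loc K P)
  have hw : Cd (loc K P : Set (FF K)) (u.1 (EE (s β) : LieV C (FF K))) :=
    (hjgr r C hC K P hP).1 u (us_le_gs _ hu) _ (hEc _)
  have hjw := hj _ hw
  generalize hwdef : (u.1 (EE (s β) : LieV C (FF K))) = w at *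
  have hbr : Cd (loc K P : Set (FF K)) (br z w) := br_mem hz hw
  have esplit : j.1 w = w + polyL K P • br z w + (j.1 w - w - polyL K P • br z w) := by abel
  rw [esplit, yf_add, yf_add, yf_smul] at h2
  have h3 : yf hC P ix (j.1 w - w - polyL K P • br z w) ∈ lp K P 2 := yf_lp hC ix hjw.2
  have h4 : yf hC P ix w + polyL K P * yf hC P ix (br z w) ∈ lp K P 2 := by
    have := lp_sub h2 h3
    rwa [add_sub_cancel_right] at this
  rcases hβ with ⟨k, hk⟩ | ⟨θ, hθ, hk⟩
  · -- simple root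
    have hw' : Tk hC (loc K P) k w := by
      rw [← hwdef, hk]
      refine us_stable hC (loc K P) (Tk hC (loc K P) k)
        (fun β hβ a ha v hv => tk_root hC hβ ha hv) _ hu _ ?_
      refine ⟨rfl, fun μ => (hEc _).2 μ, fun μ hμ => ?_, fun l => ?_⟩
      · refine EE_ne ?_
        rintro rfl
        apply hμ
        intro i
        rw [SimplyLaced.sr_val, al]
        by_cases h : i = k
        · subst h; rw [Pi.single_eq_same]; norm_num
        · rw [Pi.single_eq_of_ne h]
      · by_cases h : l = k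
        · subst h; rw [EE_self, if_pos rfl]
        · rw [if_neg h, EE_ne]
          intro e
          have e' := congrFun (congrArg Subtype.val e) l
          rw [SimplyLaced.sr_val, SimplyLaced.sr_val, al, al, Pi.single_eq_same,
            Pi.single_eq_of_ne h] at e'
          exact one_ne_zero e'
    have y1 : yf hC P ix w = -polyL K P := by
      rw [yf_pos hC P ix w (fun θ' hθ' => hw'.2.2.1 _ (pos_not_neg (r4 θ' hθ')))]
      have : ∑ j, w.2 (hC.sr j) = 1 := by
        rw [Finset.sum_congr rfl (fun j _ => hw'.2.2.2 j)]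
        simp
      rw [this, mul_one]
    have y2 : yf hC P ix (br z w) ∈ lp K P 1 := by
      rw [yf_pos hC P ix _ (fun θ' hθ' => br_theta hrtc hC hw' z hθ')]
      refine lp_neg (lp_P (loc_lp ?_))
      exact sum_mem fun j _ => hbr.2 _
    have h5 := lp_sub h4 (lp_P y2)
    rw [add_sub_cancel_right, y1] at h5
    exact P_lp hloc hP h5
  · -- negative of a dominant root
    have hwθ : ∀ θ' : Rt C, IsDom C θ'.1 → w.2 θ'.neg = (EE (s β) : LieV C (FF K)).2 θ'.neg := by
      intro θ' hθ'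
      rw [← hwdef]
      exact us_stable hC (loc K P) (fun v => v.2 θ'.neg = (EE (s β) : LieV C (FF K)).2 θ'.neg)
        (fun β hβ a _ v hv => by rw [dom_root hrtc hC hθ' hβ a v]; exact hv) _ hu _ rfl
    have y1 := yf_theta hC P ix hθ w (by rw [hwθ θ hθ, hk, EE_self]) (fun θ' hθ' hne => by
      rw [hwθ θ' hθ', hk]
      refine EE_ne fun e => hne ?_
      have := congrArg Rt.neg e
      rwa [Rt.neg_neg, Rt.neg_neg] at this)
    have h5 : yf hC P ix w + polyL K P * yf hC P ix (br z w) ∈ lp K P 1 := lp_le (by norm_num) h4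
    have h6 : polyL K P * yf hC P ix (br z w) ∈ lp K P 1 :=
      lp_P (yf_lp hC ix fun μ => loc_lp (hbr.2 μ))
    have h7 := lp_sub h5 h6
    rw [add_sub_cancel_right, y1] at h7
    have h8 : -(polyL K P * ∑ j, w.2 (hC.sr j)) ∈ lp K P 1 :=
      lp_neg (lp_P (loc_lp (sum_mem fun j _ => hw.2 _)))
    have h9 := lp_sub h7 h8
    rw [add_sub_cancel_left] at h9
    exact int_lp hloc hP (hix θ) h9

end Pool.Agent.DEN.H932
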